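import Pool.Agent.Helper13_Z3.Defs

/-!
# Squad Z3, module GAP: a gap between short and long returns
-/

set_option autoImplicit false

namespace Pool.Agent.Z3.H46

open Pool.Agent.Z3 Pool.Agent.Idx Pool.Agent.Idx.H48

variable {T : Type} {Γ : Gram T}

theorem form_rf (b : ℕ → List T → Bool) (c : List (Item Γ)) :
    ∀ s, form (rf b s c) = form c := by
  induction c with
  | nil => intro s; rfl
  | cons x c ih =>
    intro s
    rcases x with t | x
    · simp only [rf, form_cons, ih]
    · simp only [rf, form_cons, ih, isym]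

theorem flat_rf (b : ℕ → List T → Bool) (c : List (Item Γ)) :
    ∀ s, flat (rf b s c) = flat c := by
  induction c with
  | nil => intro s; rfl
  | cons x c ih =>
    intro s
    rcases x with t | x
    · simp only [rf, flat_cons, ih]
    · simp only [rf, flat_cons, ih, iword]

theorem mem_rf (b : List T → Bool) (c : List (Item Γ)) (E : Γ.N) (u : List T) (b' : Bool) :
    ∀ s, Sum.inr (E, u, b') ∈ rf (fun _ u => b u) s c →
      b' = b u ∧ ∃ b'', Sum.inr (E, u, b'') ∈ c := by
  induction c with
  | nil => intro s h; simp [rf] at h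
  | cons x c ih =>
    intro s h
    rcases x with t | ⟨E', u', b₁⟩
    · simp only [rf, List.mem_cons, reduceCtorEq, false_or] at h
      obtain ⟨h1, b'', h2⟩ := ih _ h
      exact ⟨h1, b'', List.mem_cons_of_mem _ h2⟩
    · simp only [rf, List.mem_cons, Sum.inr.injEq, Prod.mk.injEq] at h
      rcases h with ⟨rfl, rfl, rfl⟩ | h
      · exact ⟨rfl, b₁, List.mem_cons_self⟩
      · obtain ⟨h1, b'', h2⟩ := ih _ h
        exact ⟨h1, b'', List.mem_cons_of_mem _ h2⟩

theorem mem_hp {c : List (Item Γ)} {x : Γ.N × List T} (h : x ∈ hp c) :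
    Sum.inr (x.1, x.2, true) ∈ c := by
  induction c with
  | nil => simp [hp] at h
  | cons y c ih =>
    rcases y with t | ⟨A, u, b⟩
    · exact List.mem_cons_of_mem _ (ih h)
    · cases b
      · exact List.mem_cons_of_mem _ (ih h)
      · rcases List.mem_cons.1 h with rfl | h
        · exact List.mem_cons_self
        · exact List.mem_cons_of_mem _ (ih h)

theorem hp_len (m : ℕ) (c : List (Item Γ)) (h : ∀ x ∈ hp c, m ≤ 3 * x.2.length) :
    (hp c).length * m ≤ 3 * (flat c).length := by
  induction c with
  | nil => simp [hp]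
  | cons y c ih =>
    rw [flat_cons, List.length_append]
    rcases y with t | ⟨A, u, b⟩
    · have := ih h
      simp only [hp] at this ⊢
      nlinarith
    · cases b
      · have := ih h
        simp only [hp] at this ⊢
        nlinarith
      · have h1 := ih (fun x hx => h x (List.mem_cons_of_mem _ hx))
        have h2 := h (A, u) List.mem_cons_self
        simp only [hp, List.length_cons, iword] at h1 h2 ⊢
        nlinarith

/-- maximum norm of the value -/
def nm (v : T → Fin 3 → ℤ) (u : List T) : ℕ := Finset.univ.sup (fun i : Fin 3 => (sv v u i).natAbs)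

theorem nm_le {v : T → Fin 3 → ℤ} {u : List T} {B : ℕ} (h : nm v u ≤ B) (i : Fin 3) :
    |sv v u i| ≤ B := by
  have h1 : (sv v u i).natAbs ≤ nm v u :=
    Finset.le_sup (f := fun i : Fin 3 => (sv v u i).natAbs) (Finset.mem_univ i)
  rw [Int.abs_eq_natAbs]
  exact_mod_cast h1.trans h

theorem nm_gt {v : T → Fin 3 → ℤ} {u : List T} {B : ℕ} (h : B < nm v u) :
    ∃ i, (B : ℤ) < |sv v u i| := by
  by_contra hc
  have h1 : nm v u ≤ B := by
    refine Finset.sup_le fun i _ => ?_
    by_contra h2
    refine hc ⟨i, ?_⟩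
    rw [Int.abs_eq_natAbs]
    exact_mod_cast not_le.1 h2
  omega

theorem nm_len {v : T → Fin 3 → ℤ} (hv : ∀ t i, |v t i| ≤ 3) (u : List T) :
    nm v u ≤ 3 * u.length := by
  refine Finset.sup_le fun i _ => ?_
  have h1 : ∀ u : List T, |vs (fun t => v t i) u| ≤ 3 * (u.length : ℤ) := by
    intro u
    induction u with
    | nil => simp [vs]
    | cons a u ih =>
      have h2 : vs (fun t => v t i) (a :: u) = v a i + vs (fun t => v t i) u := by simp [vs]
      rw [h2, List.length_cons]
      refine (abs_add_le _ _).trans ?_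
      have := hv a i
      push_cast
      linarith
  have h2 := h1 u
  have h3 : |sv v u i| ≤ 3 * (u.length : ℤ) := h2
  rw [Int.abs_eq_natAbs] at h3
  exact_mod_cast h3

/-- thresholds -/
def thr (C : ℕ → ℕ) (Q : ℕ) : ℕ → ℕ
  | 0 => 0
  | i + 1 => thr C Q i + 1 + Q + 3 * Q * C (thr C Q i)

theorem thr_mono (C : ℕ → ℕ) (Q : ℕ) : Monotone (thr C Q) := by
  refine monotone_nat_of_le_succ fun i => ?_
  simp only [thr]
  omega

theorem gap : GapStmt := by
  intro T Γ v Q hv
  classical
  have hfin := Γ.finN
  have hfin' : Fintype Γ.N := Fintype.ofFinite Γ.N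
  choose C hC using P1 Γ v
  let M := thr C Q
  have hM : Monotone M := thr_mono C Q
  let k := Fintype.card Γ.N
  refine ⟨M k, ∑ j ∈ Finset.range (k + 1), C (M j), ?_⟩
  intro A f σ c hD hF hone hsgl
  -- the gap
  have hgap : ∃ j, j ≤ k ∧ ∀ E u b, Sum.inr (E, u, b) ∈ c → nm v u ≤ M j ∨ M (j + 1) < nm v u := by
    by_contra hc
    have h1 : ∀ j : Fin (k + 1), ∃ E u b, Sum.inr (E, u, b) ∈ c ∧ M j < nm v u ∧
        nm v u ≤ M (j + 1) := by
      intro j
      by_contra h2
      refine hc ⟨j, by omega, fun E u b hm => ?_⟩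
      by_contra h3
      rw [not_or] at h3
      exact h2 ⟨E, u, b, hm, by omega, by omega⟩
    choose E u b h1 h2 h3 using h1
    obtain ⟨j, j', hne, he⟩ := Fintype.exists_ne_map_eq_of_card_lt E (by simp [k])
    have key : ∀ j j' : Fin (k + 1), j < j' → E j = E j' → False := by
      intro j j' hlt he
      have h4 : u j' ∈ Lang Γ (E j) σ := by rw [he]; exact hF _ _ _ (h1 j')
      have h5 := hsgl _ _ _ (h1 j) _ h4
      have h6 : nm v (u j') = nm v (u j) := by unfold nm; rw [h5]
      have h7 := h3 j
      have h8 := h2 j'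
      have h9 : M (j + 1) ≤ M j' := hM (by exact_mod_cast hlt)
      omega
    rcases lt_or_gt_of_ne hne with h | h
    · exact key j j' h he
    · exact key j' j h he.symm
  obtain ⟨j, hj, hg⟩ := hgap
  have hMs : M (j + 1) = M j + 1 + Q + 3 * Q * C (M j) := rfl
  refine ⟨fun u => decide (M (j + 1) < nm v u), ?_, ?_, ?_⟩
  · intro E u b' hm hb i
    have h1 : ¬ M (j + 1) < nm v u := of_decide_eq_false hb
    have h2 : nm v u ≤ M j := by
      rcases hg E u b' hm with h | h
      · exact h
      · exact absurd h h1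
    exact nm_le (h2.trans (hM hj)) i
  · intro E u b' hm hb
    have h1 : M (j + 1) < nm v u := of_decide_eq_true hb
    exact nm_gt (lt_trans (show Q < M (j + 1) by rw [hMs]; omega) h1)
  · intro s i
    set c' := rf (fun _ u => decide (M (j + 1) < nm v u)) s c with hc'
    have hform : form c' = form c := form_rf _ _ _
    have hflat : flat c' = flat c := flat_rf _ _ _
    have hmem : ∀ E u b', Sum.inr (E, u, b') ∈ c' → b' = decide (M (j + 1) < nm v u) ∧
        ∃ b'', Sum.inr (E, u, b'') ∈ c := fun E u b' h => mem_rf _ c E u b' s h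
    have h1 := hC (M j) A f σ c' (by rw [hform]; exact hD)
      (fun E u b' h => by
        obtain ⟨_, b'', h2⟩ := hmem E u b' h
        exact hF E u b'' h2)
      (by rw [hflat]; exact hone)
      (fun E u b' h => by
        obtain ⟨_, b'', h2⟩ := hmem E u b' h
        exact hsgl E u b'' h2)
      (fun E u h => by
        obtain ⟨h3, b'', h2⟩ := hmem E u false h
        have h4 : ¬ M (j + 1) < nm v u := of_decide_eq_false h3.symm
        have h5 : nm v u ≤ M j := by
          rcases hg E u b'' h2 with h | h
          · exact h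
          · exact absurd h h4
        exact nm_le h5) i
    have h2 : (hp c').length * M (j + 1) ≤ 3 * (flat c').length := by
      refine hp_len _ _ fun x hx => ?_
      obtain ⟨h3, _⟩ := hmem _ _ _ (mem_hp hx)
      have h4 : M (j + 1) < nm v x.2 := of_decide_eq_true h3.symm
      exact h4.le.trans (nm_len hv x.2)
    rw [hflat] at h2
    have h3 : Q * C (M j) * (hp c').length ≤ (flat c).length := by
      have h4 : 3 * (Q * C (M j)) * (hp c').length ≤ (hp c').length * M (j + 1) := by
        rw [hMs]
        nlinarith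
      nlinarith
    have h4 : C (M j) ≤ ∑ j ∈ Finset.range (k + 1), C (M j) :=
      Finset.single_le_sum (f := fun j => C (M j)) (fun _ _ => Nat.zero_le _)
        (Finset.mem_range.2 (by omega))
    have h5 : (Q : ℤ) * |kv (fun t => v t i) c'| ≤ Q * (C (M j) * (1 + (hp c').length)) :=
      mul_le_mul_of_nonneg_left h1 (by positivity)
    have h6 : (Q : ℤ) * C (M j) * (hp c').length ≤ (flat c).length := by exact_mod_cast h3
    have h7 : (Q : ℤ) * C (M j) ≤ Q * ((∑ j ∈ Finset.range (k + 1), C (M j) : ℕ) : ℤ) := by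
      refine mul_le_mul_of_nonneg_left ?_ (by positivity)
      exact_mod_cast h4
    nlinarith

end Pool.Agent.Z3.H46
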